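import Pool.Agent.H75.SQ.All

/-!
# Quantum statistical algorithms for satisfiability

Arbitrary observables on linearly many copies of the state of the formula, unrestricted computation
between the queries.
-/

set_option autoImplicit false

open Finset Pool.Agent.H75.SQ

namespace Pool.Agent.Results.MP_0f8dca_lc.StatisticalQueries

/-- The theorem: linearly many copies; constant width; optimality for the law of an odd number of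
true literals. -/
theorem result :
    (∀ Λ t e : ℝ, 1 ≤ Λ → 0 ≤ t → t * Real.logb 2 Λ < 1 → 0 < e →
      ∃ a > (0 : ℝ), ∃ r₀ n₀ : ℕ, ∀ n ≥ n₀, ∀ k r q m : ℕ, ∀ τ : ℝ, ∀ Q : (Fin k → Bool) → ℝ,
      r₀ ≤ r → Law k r Q → 2 ^ k * ∑ y, Q y ^ 2 ≤ Λ → (q : ℝ) ≤ t * n →
      Real.exp (-(a * n)) ≤ τ → τ ≤ 1 → q / τ ^ 2 ≤ Real.exp (a * r) →
      2 ^ k * n ^ 2 * (q + 1) ^ 4 / τ ^ 4 ≤ m → ∀ (A : Alg q m (Cl n k)) (T : ℕ),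
      (T : ℝ) ≤ 2 ^ ((1 - t * Real.logb 2 Λ - e) * n / 2) → Fails Q A T τ (2 ^ (-(a * n)))) ∧
    (∀ e c : ℝ, 0 < e → e < 1 → 0 < c → ∃ r₀ : ℕ, ∀ r ≥ r₀, ∀ Λ : ℝ, 1 ≤ Λ →
      ∃ n₀ : ℕ, ∀ n ≥ n₀, ∀ k q m : ℕ, ∀ τ : ℝ, ∀ Q : (Fin k → Bool) → ℝ,
      Law k r Q → 2 ^ k * ∑ y, Q y ^ 2 ≤ Λ → (q : ℝ) ≤ (n : ℝ) ^ (1 - e) → (n : ℝ) ^ (-c) ≤ τ →
      τ ≤ 1 → 2 ^ k * n ^ 2 * (q + 1) ^ 4 / τ ^ 4 ≤ m → ∀ (A : Alg q m (Cl n k)) (T : ℕ),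
      (T : ℝ) ≤ 2 ^ (n : ℝ) ^ (1 - e) → Fails Q A T τ (2 ^ (-(n : ℝ) ^ (1 - e)))) ∧
    (∀ t e : ℝ, 0 < t → t < 1 → 0 < e → ∃ C > (0 : ℝ), ∃ d > (0 : ℝ), ∃ n₀ : ℕ,
      ∀ n ≥ n₀, ∀ k q m : ℕ, C * Real.log n ≤ k → (q : ℝ) ≤ t * n → t * n < q + 1 →
      (n : ℝ) ^ C ≤ m → ∃ (A : Alg q m (Cl n k)) (T : ℕ), (T : ℝ) ≤ 2 ^ ((1 - t + e) * n / 2) ∧
        1 - (2 : ℝ) ^ (-(d * n)) ≤ Ppl (Qodd k) m (fun F : Fin m → Cl n k =>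
          ∀ v, Adm A (1 / 4) F v → 1 - (2 : ℝ) ^ (-(d * n)) ≤ A.pr T v) ∧
        1 - (2 : ℝ) ^ (-(d * n)) ≤ Pun m (fun F : Fin m → Cl n k =>
          ∀ v, Adm A (1 / 4) F v → A.pr T v ≤ (2 : ℝ) ^ (-(d * n)))) :=
  x_ALL

end Pool.Agent.Results.MP_0f8dca_lc.StatisticalQueries
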